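import Mathlib

/-!
# Project PW (MP_8958e8_nt), block B1: uniformity by Baire's theorem

A family of bilinear forms on smooth functions with fixed compact supports, with a power saving for every fixed pair,
has a uniform power saving on bounded sets of `C^K`, for some `K`.
-/

open MeasureTheory Set Filter Topology
open scoped ContDiff BoundedContinuousFunction

namespace Pool.Agent.Helper54.PW

/-- smooth functions with support in `[a, b]` -/
def SB (a b : ℝ) (w : ℝ → ℝ) : Prop := ContDiff ℝ ∞ w ∧ ∀ x, x ∉ Icc a b → w x = 0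

/-- the sequences of derivatives -/
def Sq (a b : ℝ) : Set (ℕ → ℝ →ᵇ ℝ) :=
  {f | ∀ k x, (f k) x = (∫ t in (a - 1)..x, f (k + 1) t) ∧ (x ∉ Icc a b → f k x = 0)}

private lemma ev54 (k : ℕ) (x : ℝ) : Continuous fun f : ℕ → ℝ →ᵇ ℝ => f k x :=
  (continuous_eval_const x).comp (continuous_apply k)

private lemma int54 (p q : ℝ) : Continuous fun f : ℝ →ᵇ ℝ => ∫ t in p..q, f t := by
  refine LipschitzWith.continuous (K := Real.toNNReal |q - p|) (LipschitzWith.of_dist_le_mul fun f g => ?_)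
  rw [dist_eq_norm, ← intervalIntegral.integral_sub (f.continuous.intervalIntegrable _ _)
    (g.continuous.intervalIntegrable _ _), Real.coe_toNNReal _ (abs_nonneg _), mul_comm]
  refine intervalIntegral.norm_integral_le_of_norm_le_const fun x _ => ?_
  rw [← dist_eq_norm]
  exact BoundedContinuousFunction.dist_coe_le_dist x

private lemma closed54 (a b : ℝ) : IsClosed (Sq a b) := by
  unfold Sq
  simp only [ofPred_forall]
  refine isClosed_iInter fun k => isClosed_iInter fun x => ?_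
  refine IsClosed.and (isClosed_eq (ev54 k x) ((int54 _ _).comp (continuous_apply (k + 1)))) ?_
  by_cases hx : x ∈ Icc a b
  · simp [hx]
  · simp only [hx, not_false_eq_true, forall_const]
    exact isClosed_eq (ev54 k x) continuous_const

private lemma deriv54 {a b : ℝ} {f : ℕ → ℝ →ᵇ ℝ} (hf : f ∈ Sq a b) (k : ℕ) (x : ℝ) :
    HasDerivAt (f k) (f (k + 1) x) x := by
  have h1 : (f k : ℝ → ℝ) = fun x => ∫ t in (a - 1)..x, f (k + 1) t := funext fun x => (hf k x).1
  rw [h1]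
  exact intervalIntegral.integral_hasDerivAt_right ((f (k + 1)).continuous.intervalIntegrable _ _)
    ((f (k + 1)).continuous.stronglyMeasurableAtFilter _ _) (f (k + 1)).continuous.continuousAt

private lemma iter54 {a b : ℝ} {f : ℕ → ℝ →ᵇ ℝ} (hf : f ∈ Sq a b) (k : ℕ) :
    iteratedDeriv k (f 0) = f k := by
  induction k with
  | zero => rw [iteratedDeriv_zero]
  | succ k ih =>
    rw [iteratedDeriv_succ, ih]
    funext x
    exact (deriv54 hf k x).deriv

private lemma sb54 {a b : ℝ} {f : ℕ → ℝ →ᵇ ℝ} (hf : f ∈ Sq a b) : SB a b (f 0) := by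
  refine ⟨contDiff_of_differentiable_iteratedDeriv fun m _ => ?_, fun x hx => (hf 0 x).2 hx⟩
  rw [iter54 hf]
  exact fun x => (deriv54 hf m x).differentiableAt

/-- derivatives of functions in `SB` vanish outside the interval -/
theorem SB.iter_zero {a b : ℝ} {w : ℝ → ℝ} (hw : SB a b w) (k : ℕ) {x : ℝ} (hx : x ∉ Icc a b) :
    iteratedDeriv k w x = 0 := by
  have h1 : w =ᶠ[𝓝 x] fun _ => 0 :=
    Filter.eventually_of_mem ((isClosed_Icc.isOpen_compl).mem_nhds hx) fun y hy => hw.2 y hy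
  rw [h1.iteratedDeriv_eq]
  simp

theorem SB.iter_cont {a b : ℝ} {w : ℝ → ℝ} (hw : SB a b w) (k : ℕ) : Continuous (iteratedDeriv k w) :=
  hw.1.continuous_iteratedDeriv k (by exact_mod_cast le_top)

theorem SB.iter_bdd {a b : ℝ} {w : ℝ → ℝ} (hw : SB a b w) (k : ℕ) :
    ∃ C : ℝ, ∀ x, ‖iteratedDeriv k w x‖ ≤ C := by
  have h1 : HasCompactSupport (iteratedDeriv k w) :=
    HasCompactSupport.intro (isCompact_Icc (a := a) (b := b)) fun x hx => hw.iter_zero k hx
  exact h1.exists_bound_of_continuous (hw.iter_cont k)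

private noncomputable def to54 {a b : ℝ} {w : ℝ → ℝ} (hw : SB a b w) : Sq a b :=
  ⟨fun k => BoundedContinuousFunction.ofNormedAddCommGroup (iteratedDeriv k w) (hw.iter_cont k)
    (hw.iter_bdd k).choose (hw.iter_bdd k).choose_spec, by
    intro k x
    refine ⟨?_, fun hx => hw.iter_zero k hx⟩
    change iteratedDeriv k w x = ∫ t in (a - 1)..x, iteratedDeriv (k + 1) w t
    have h1 : ∀ y, HasDerivAt (iteratedDeriv k w) (iteratedDeriv (k + 1) w y) y := by
      intro y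
      rw [iteratedDeriv_succ]
      exact ((hw.1.differentiable_iteratedDeriv k (by exact_mod_cast WithTop.coe_lt_top _)) y).hasDerivAt
    rw [intervalIntegral.integral_eq_sub_of_hasDerivAt (fun y _ => h1 y)
      ((hw.iter_cont (k + 1)).intervalIntegrable _ _),
      hw.iter_zero k (x := a - 1) (fun h => by linarith [h.1]), sub_zero]⟩

private lemma to54_apply {a b : ℝ} {w : ℝ → ℝ} (hw : SB a b w) (k : ℕ) (x : ℝ) :
    (to54 hw).1 k x = iteratedDeriv k w x := rfl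

private lemma nhds54 {a b : ℝ} (f0 : Sq a b) {U : Set (Sq a b)} (hU : U ∈ 𝓝 f0) :
    ∃ (K : ℕ) (ε : ℝ), 0 < ε ∧ ∀ f : Sq a b, (∀ k ≤ K, dist (f.1 k) (f0.1 k) < ε) → f ∈ U := by
  rw [nhds_subtype_eq_comap, mem_comap] at hU
  obtain ⟨V, hV, hVU⟩ := hU
  rw [nhds_pi, Filter.mem_pi] at hV
  obtain ⟨I, hI, t, ht, htV⟩ := hV
  obtain ⟨K, hK⟩ := hI.bddAbove
  have h1 : ∀ᶠ ε in 𝓝[>] (0 : ℝ), ∀ i ∈ I, Metric.ball (f0.1 i) ε ⊆ t i := by
    refine (eventually_all_finite hI).2 fun i _ => ?_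
    obtain ⟨ε, hε, h2⟩ := Metric.mem_nhds_iff.1 (ht i)
    filter_upwards [Ioo_mem_nhdsGT hε] with δ hδ
    exact (Metric.ball_subset_ball hδ.2.le).trans h2
  obtain ⟨ε, hε, hε0⟩ := (h1.and self_mem_nhdsWithin).exists
  refine ⟨K, ε, hε0, fun f hf => hVU (htV fun i hi => hε i hi ?_)⟩
  exact hf i (hK hi)

/-- **Uniformity by Baire's theorem.** -/
theorem ubp {a b a' b' : ℝ} {B : ℝ → (ℝ → ℝ) → (ℝ → ℝ) → ℂ}
    (hadd1 : ∀ T w1 w2 v, B T (fun x => w1 x + w2 x) v = B T w1 v + B T w2 v)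
    (hadd2 : ∀ T w v1 v2, B T w (fun x => v1 x + v2 x) = B T w v1 + B T w v2)
    (hs1 : ∀ T (c : ℝ) w v, B T (fun x => c * w x) v = c * B T w v)
    (hs2 : ∀ T (c : ℝ) w v, B T w (fun x => c * v x) = c * B T w v)
    (hbd : ∀ T, ∃ C : ℝ, ∀ (w v : ℝ → ℝ) (M M' : ℝ), (∀ x, |w x| ≤ M) → (∀ x, |v x| ≤ M') →
      ‖B T w v‖ ≤ C * M * M')
    (h : ∀ w v, SB a b w → SB a' b' v → ∃ δ C : ℝ, 0 < δ ∧ ∀ᶠ T : ℝ in atTop,
      ‖B T w v‖ ≤ C * T ^ (1 - δ)) :
    ∃ (K : ℕ) (δ C : ℝ), 0 < δ ∧ 0 < C ∧ ∀ᶠ T : ℝ in atTop, ∀ (w v : ℝ → ℝ) (M M' : ℝ),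
      SB a b w → SB a' b' v → (∀ k ≤ K, ∀ x, |iteratedDeriv k w x| ≤ M) →
      (∀ k ≤ K, ∀ x, |iteratedDeriv k v x| ≤ M') → ‖B T w v‖ ≤ C * M * M' * T ^ (1 - δ) := by
  classical
  -- continuity
  have hcont : ∀ T, Continuous fun x : (ℝ →ᵇ ℝ) × (ℝ →ᵇ ℝ) => B T x.1 x.2 := by
    intro T
    obtain ⟨C, hC⟩ := hbd T
    let L := LinearMap.mk₂ ℝ (fun f g : ℝ →ᵇ ℝ => B T f g)
      (fun f1 f2 g => by
        rw [← hadd1]
        rfl)
      (fun c f g => by
        rw [Complex.real_smul, ← hs1]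
        rfl)
      (fun f g1 g2 => by
        rw [← hadd2]
        rfl)
      (fun c f g => by
        rw [Complex.real_smul, ← hs2]
        rfl)
    have h1 : ∀ f g : ℝ →ᵇ ℝ, ‖L f g‖ ≤ C * ‖f‖ * ‖g‖ := fun f g =>
      hC f g ‖f‖ ‖g‖ (fun x => f.norm_coe_le_norm x) (fun x => g.norm_coe_le_norm x)
    exact (L.mkContinuous₂ C h1).continuous₂
  have h1 : TopologicalSpace.IsCompletelyMetrizableSpace (Sq a b) :=
    (closed54 a b).isCompletelyMetrizableSpace
  have h2 : TopologicalSpace.IsCompletelyMetrizableSpace (Sq a' b') :=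
    (closed54 a' b').isCompletelyMetrizableSpace
  have hz : ∀ p q : ℝ, SB p q fun _ => 0 := fun p q => ⟨contDiff_const, fun _ _ => rfl⟩
  have h3 : Nonempty (Sq a b × Sq a' b') := ⟨(to54 (hz a b), to54 (hz a' b'))⟩
  let E : ℕ → Set (Sq a b × Sq a' b') := fun j =>
    {x | ∀ T : ℝ, (j : ℝ) ≤ T → ‖B T (x.1.1 0) (x.2.1 0)‖ ≤ j * T ^ (1 - 1 / ((j : ℝ) + 1))}
  have hE : ∀ j, IsClosed (E j) := by
    intro j
    simp only [E, ofPred_forall]
    refine isClosed_iInter fun T => isClosed_iInter fun _ => isClosed_le ?_ continuous_const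
    have h4 : Continuous fun x : Sq a b × Sq a' b' => (x.1.1 0, x.2.1 0) :=
      ((continuous_apply 0).comp (continuous_subtype_val.comp continuous_fst)).prodMk
        ((continuous_apply 0).comp (continuous_subtype_val.comp continuous_snd))
    exact ((hcont T).comp h4).norm
  have hU : ⋃ j, E j = univ := by
    refine eq_univ_of_forall fun x => ?_
    obtain ⟨δ, C, hδ, h4⟩ := h _ _ (sb54 x.1.2) (sb54 x.2.2)
    obtain ⟨T0, hT0⟩ := eventually_atTop.1 h4
    obtain ⟨j, hj⟩ := exists_nat_ge (max (max T0 |C|) (max (1 / δ) 1))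
    have hj1 : T0 ≤ j := ((le_max_left _ _).trans (le_max_left _ _)).trans hj
    have hj2 : |C| ≤ j := ((le_max_right _ _).trans (le_max_left _ _)).trans hj
    have hj3 : 1 / δ ≤ j := ((le_max_left _ _).trans (le_max_right _ _)).trans hj
    have hj4 : 1 ≤ (j : ℝ) := ((le_max_right _ _).trans (le_max_right _ _)).trans hj
    refine mem_iUnion.2 ⟨j, fun T hT => (hT0 T (hj1.trans hT)).trans ?_⟩
    have hT1 : 1 ≤ T := hj4.trans hT
    have h5 : 1 / ((j : ℝ) + 1) ≤ δ := by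
      rw [div_le_iff₀ (by positivity)]
      rw [div_le_iff₀ hδ] at hj3
      nlinarith
    calc C * T ^ (1 - δ) ≤ |C| * T ^ (1 - δ) :=
          mul_le_mul_of_nonneg_right (le_abs_self _) (by positivity)
      _ ≤ j * T ^ (1 - 1 / ((j : ℝ) + 1)) :=
          mul_le_mul hj2 (Real.rpow_le_rpow_of_exponent_le hT1 (by linarith)) (by positivity)
            (by positivity)
  obtain ⟨j, ⟨⟨f0, g0⟩, hfg⟩⟩ := nonempty_interior_of_iUnion_of_closed hE hU
  rw [mem_interior_iff_mem_nhds, nhds_prod_eq, Filter.mem_prod_iff] at hfg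
  obtain ⟨U, hU1, V, hV1, hUV⟩ := hfg
  obtain ⟨K1, ε1, hε1, hK1⟩ := nhds54 f0 hU1
  obtain ⟨K2, ε2, hε2, hK2⟩ := nhds54 g0 hV1
  obtain ⟨ε, hε, hεa, hεb⟩ : ∃ ε : ℝ, 0 < ε ∧ ε < ε1 ∧ ε < ε2 :=
    ⟨min ε1 ε2 / 2, by positivity, by
      have := min_le_left ε1 ε2
      have := lt_min hε1 hε2
      linarith, by
      have := min_le_right ε1 ε2
      have := lt_min hε1 hε2
      linarith⟩
  -- small functions
  have key : ∀ T : ℝ, (j : ℝ) ≤ T → ∀ w v : ℝ → ℝ, SB a b w → SB a' b' v →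
      (∀ k ≤ max K1 K2, ∀ x, |iteratedDeriv k w x| ≤ ε) →
      (∀ k ≤ max K1 K2, ∀ x, |iteratedDeriv k v x| ≤ ε) →
      ‖B T w v‖ ≤ 4 * (j * T ^ (1 - 1 / ((j : ℝ) + 1))) := by
    intro T hT w v hw hv hwb hvb
    have hsum : ∀ {p q : ℝ} (f : Sq p q) {u : ℝ → ℝ}, SB p q u → SB p q fun x => f.1 0 x + u x := by
      intro p q f u hu
      refine ⟨(sb54 f.2).1.add hu.1, fun x hx => ?_⟩
      beta_reduce
      rw [(sb54 f.2).2 x hx, hu.2 x hx, add_zero]
    have hdist : ∀ {p q : ℝ} (f : Sq p q) {u : ℝ → ℝ} (hu : SB p q u) (k : ℕ) (η : ℝ),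
        (∀ x, |iteratedDeriv k u x| ≤ η) → dist ((to54 (hsum f hu)).1 k) (f.1 k) ≤ η := by
      intro p q f u hu k η hη
      refine (BoundedContinuousFunction.dist_le ((abs_nonneg _).trans (hη 0))).2 fun x => ?_
      have h5 : iteratedDeriv k (fun x => f.1 0 x + u x) x = f.1 k x + iteratedDeriv k u x := by
        have h6 : iteratedDeriv k ((f.1 0 : ℝ → ℝ) + u) x =
            iteratedDeriv k (f.1 0) x + iteratedDeriv k u x :=
          iteratedDeriv_add (((sb54 f.2).1.of_le (by exact_mod_cast le_top)).contDiffAt)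
            ((hu.1.of_le (by exact_mod_cast le_top)).contDiffAt)
        rw [iter54 f.2] at h6
        exact h6
      rw [to54_apply, h5, Real.dist_eq, add_sub_cancel_left]
      exact hη x
    have hU2 : ∀ {u : ℝ → ℝ} (hu : SB a b u), (∀ k ≤ max K1 K2, ∀ x, |iteratedDeriv k u x| ≤ ε) →
        to54 (hsum f0 hu) ∈ U := fun hu hb => hK1 _ fun k hk =>
      (hdist f0 hu k ε (hb k (hk.trans (le_max_left _ _)))).trans_lt hεa
    have hV2 : ∀ {u : ℝ → ℝ} (hu : SB a' b' u), (∀ k ≤ max K1 K2, ∀ x, |iteratedDeriv k u x| ≤ ε) →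
        to54 (hsum g0 hu) ∈ V := fun hu hb => hK2 _ fun k hk =>
      (hdist g0 hu k ε (hb k (hk.trans (le_max_right _ _)))).trans_lt hεb
    have e1 := hUV (mk_mem_prod (hU2 hw hwb) (hV2 hv hvb)) T hT
    have e2 := hUV (mk_mem_prod (hU2 hw hwb) (mem_of_mem_nhds hV1)) T hT
    have e3 := hUV (mk_mem_prod (mem_of_mem_nhds hU1) (hV2 hv hvb)) T hT
    have e4 := hUV (mk_mem_prod (mem_of_mem_nhds hU1) (mem_of_mem_nhds hV1)) T hT
    have c1 : ((to54 (hsum f0 hw)).1 0 : ℝ → ℝ) = fun x => f0.1 0 x + w x := by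
      funext x
      rw [to54_apply, iteratedDeriv_zero]
    have c2 : ((to54 (hsum g0 hv)).1 0 : ℝ → ℝ) = fun x => g0.1 0 x + v x := by
      funext x
      rw [to54_apply, iteratedDeriv_zero]
    simp only [c1, c2] at e1 e2 e3 e4
    have e5 : B T w v = B T (fun x => f0.1 0 x + w x) (fun x => g0.1 0 x + v x) -
        B T (fun x => f0.1 0 x + w x) (g0.1 0) - B T (f0.1 0) (fun x => g0.1 0 x + v x) +
        B T (f0.1 0) (g0.1 0) := by
      rw [hadd1, hadd2, hadd2, hadd1]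
      ring
    rw [e5]
    have t1 := norm_add_le (B T (fun x => f0.1 0 x + w x) (fun x => g0.1 0 x + v x) -
        B T (fun x => f0.1 0 x + w x) (g0.1 0) - B T (f0.1 0) (fun x => g0.1 0 x + v x))
        (B T (f0.1 0) (g0.1 0))
    have t2 := norm_sub_le (B T (fun x => f0.1 0 x + w x) (fun x => g0.1 0 x + v x) -
        B T (fun x => f0.1 0 x + w x) (g0.1 0)) (B T (f0.1 0) (fun x => g0.1 0 x + v x))
    have t3 := norm_sub_le (B T (fun x => f0.1 0 x + w x) (fun x => g0.1 0 x + v x))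
        (B T (fun x => f0.1 0 x + w x) (g0.1 0))
    linarith
  refine ⟨max K1 K2, 1 / ((j : ℝ) + 1), 4 * j / ε ^ 2 + 1, by positivity, by positivity, ?_⟩
  filter_upwards [eventually_ge_atTop (j : ℝ), eventually_ge_atTop (1 : ℝ)] with T hT hT1
  intro w v M M' hw hv hM hM'
  have hM0 : 0 ≤ M := (abs_nonneg _).trans (hM 0 (Nat.zero_le _) 0)
  have hM0' : 0 ≤ M' := (abs_nonneg _).trans (hM' 0 (Nat.zero_le _) 0)
  have hpow : 0 ≤ T ^ (1 - 1 / ((j : ℝ) + 1)) := by positivity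
  rcases hM0.eq_or_lt with h5 | h5
  · have h6 : w = fun x => (0 : ℝ) * w x := by
      funext x
      have h7 := hM 0 (Nat.zero_le _) x
      rw [iteratedDeriv_zero, ← h5] at h7
      rw [abs_eq_zero.1 (le_antisymm h7 (abs_nonneg _)), mul_zero]
    have h8 : B T w v = 0 := by
      rw [h6, hs1]
      simp
    rw [h8, norm_zero, ← h5]
    simp
  rcases hM0'.eq_or_lt with h6 | h6
  · have h7 : v = fun x => (0 : ℝ) * v x := by
      funext x
      have h7 := hM' 0 (Nat.zero_le _) x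
      rw [iteratedDeriv_zero, ← h6] at h7
      rw [abs_eq_zero.1 (le_antisymm h7 (abs_nonneg _)), mul_zero]
    have h8 : B T w v = 0 := by
      rw [h7, hs2]
      simp
    rw [h8, norm_zero, ← h6]
    simp
  have hscale : ∀ {p q : ℝ} {u : ℝ → ℝ} {m : ℝ}, 0 < m → SB p q u →
      (∀ k ≤ max K1 K2, ∀ x, |iteratedDeriv k u x| ≤ m) →
      SB p q (fun x => (ε / m) * u x) ∧
        ∀ k ≤ max K1 K2, ∀ x, |iteratedDeriv k (fun x => (ε / m) * u x) x| ≤ ε := by
    intro p q u m hm hu hb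
    refine ⟨⟨contDiff_const.mul hu.1, fun x hx => by beta_reduce; rw [hu.2 x hx, mul_zero]⟩, fun k hk x => ?_⟩
    have h7 : iteratedDeriv k (fun x => (ε / m) * u x) x = (ε / m) * iteratedDeriv k u x :=
      iteratedDeriv_const_mul_field (ε / m) u
    rw [h7, abs_mul, abs_of_pos (by positivity)]
    calc ε / m * |iteratedDeriv k u x| ≤ ε / m * m :=
          mul_le_mul_of_nonneg_left (hb k hk x) (by positivity)
      _ = ε := by field_simp
  obtain ⟨s1, s2⟩ := hscale h5 hw hM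
  obtain ⟨s3, s4⟩ := hscale h6 hv hM'
  have h7 := key T hT _ _ s1 s3 s2 s4
  rw [hs1, hs2, norm_mul, norm_mul, Complex.norm_real, Complex.norm_real, Real.norm_eq_abs,
    Real.norm_eq_abs, abs_of_pos (by positivity), abs_of_pos (by positivity)] at h7
  have h8 : ‖B T w v‖ = M * M' / ε ^ 2 * (ε / M * (ε / M' * ‖B T w v‖)) := by
    field_simp
  rw [h8]
  calc M * M' / ε ^ 2 * (ε / M * (ε / M' * ‖B T w v‖))
      ≤ M * M' / ε ^ 2 * (4 * (j * T ^ (1 - 1 / ((j : ℝ) + 1)))) :=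
        mul_le_mul_of_nonneg_left h7 (by positivity)
    _ = 4 * j / ε ^ 2 * M * M' * T ^ (1 - 1 / ((j : ℝ) + 1)) := by ring
    _ ≤ (4 * j / ε ^ 2 + 1) * M * M' * T ^ (1 - 1 / ((j : ℝ) + 1)) := by
        have h9 : 0 ≤ M * M' * T ^ (1 - 1 / ((j : ℝ) + 1)) := by positivity
        nlinarith

end Pool.Agent.Helper54.PW
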